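import Pool.Agent.Q239.DC.LOC

/-!
# Chains normalised by elements of the coset (CHI)
-/

set_option autoImplicit false

open scoped BigOperators Classical
open Pool.Agent.Y63.KR Pool.Agent.Q17.TC Pool.Agent.Q17.DC

noncomputable section

namespace Pool.Agent.Q239.DC

/-- a `p`-subgroup normalised by a `p`-element of `H ∩ K` outside `N` is in `H` -/
lemma norm_le_H {G : Type} [Group G] [Fintype G] {N : Subgroup G} {y : G} {H : Subgroup G} {p : ℕ}
    [hp : Fact p.Prime] {P : Sylow p G} (ti : S_TI) (d : TD p N y H P) {Q : Subgroup G}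
    (hQ : IsPGroup p Q) {z : G} (hz : conjSub z Q = Q) (hzp : ∃ k, orderOf z = p ^ k)
    (hzH : z ∈ H) (hzK : z ∈ KK N y) (hzN : z ∉ N) : Q ≤ H := by
  have h1 : IsPGroup p (Q ⊔ Subgroup.zpowers z : Subgroup G) :=
    IsPGroup.to_sup_of_normal_left' hQ (zp_isp hzp) (by
      rw [Subgroup.zpowers_le]
      exact conjSub_eq_iff.mp hz)
  exact le_sup_left.trans
    (le_H ti d h1 (Subgroup.mem_sup_right (Subgroup.mem_zpowers z)) hzH hzK hzN)

/-- conjugate chains -/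
lemma ch_conj {Γ : Type} [Group Γ] {p : ℕ} {X Z : Subgroup Γ} {σ : Set (Subgroup Γ)}
    (h : Ch p X Z σ) {g : Γ} (hX : conjSub g X = X) (hZ : conjSub g Z = Z) :
    Ch p X Z (conjSub g '' σ) := by
  refine ⟨?_, ?_, ?_, ?_⟩
  · rintro _ ⟨P, hP, rfl⟩ _ ⟨Q, hQ, rfl⟩ _
    rcases h.chain.total hP hQ with h1 | h1
    · exact Or.inl (conjSub_le h1)
    · exact Or.inr (conjSub_le h1)
  · rintro _ ⟨P, hP, rfl⟩
    exact (h.isp P hP).map _
  · rintro _ ⟨P, hP, rfl⟩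
    rw [← hX]
    exact conjSub_le (h.le P hP)
  · rintro _ ⟨P, hP, rfl⟩
    refine lt_of_le_of_ne ?_ ?_
    · rw [← hZ]
      exact conjSub_le (h.lt P hP).le
    · intro h1
      rw [← hZ] at h1
      exact (h.lt P hP).ne (conjSub_injective g h1)

lemma conj_normal {Γ : Type} [Group Γ] (X : Subgroup Γ) [X.Normal] (g : Γ) : conjSub g X = X := by
  rw [conjSub_eq_iff, Subgroup.normalizer_eq_top]
  exact Subgroup.mem_top g

/-- **CHI** -/
theorem t_CHI : S_CHI := by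
  intro ti Γ _ _ p hp N G hN hG y H P d hNG hyG Z hZn hZG hZp
  have hnK : (KK N y).Normal := d.nK
  have hT := (ti Γ p N y H P d).1
  have main : ∀ σ, Ch p G Z σ → ∀ z ∈ chainStabilizer σ, z ∈ H → z ∈ KK N y → z ∉ N →
      (∃ k, orderOf z = p ^ k) → Ch p (G ⊓ H) Z σ := by
    intro σ hσ z hz hzH hzK hzN hzp
    refine ⟨hσ.chain, hσ.isp, fun Q hQ => le_inf (hσ.le Q hQ) ?_, hσ.lt⟩
    exact norm_le_H ti d (hσ.isp Q hQ) (mem_chainStabilizer.mp hz Q hQ) hzp hzH hzK hzN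
  refine ⟨?_, ?_, ?_, ?_⟩
  · rintro σ hσ ⟨z, hz, hzK, hzN, hzp⟩
    obtain ⟨n, hn, hnH⟩ := (ti Γ p N y H P d).2 z hzK hzN
    have h1 : Ch p G Z (conjSub n⁻¹ '' σ) := ch_conj hσ (conj_normal G _) (conj_normal Z _)
    have h2 : n⁻¹ * z * n ∈ chainStabilizer (conjSub n⁻¹ '' σ) := by
      rw [chainStabilizer_conj, mem_conjSub]
      have e : n⁻¹⁻¹ * (n⁻¹ * z * n) * n⁻¹ = z := by group
      rw [e]
      exact hz.2
    have h3 : n⁻¹ * z * n ∈ KK N y := by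
      have := hnK.conj_mem z hzK n⁻¹
      rwa [inv_inv] at this
    have h4 : n⁻¹ * z * n ∉ N := by
      intro h
      apply hzN
      have h5 := hN.conj_mem _ h n
      have e : n * (n⁻¹ * z * n) * n⁻¹ = z := by group
      rwa [e] at h5
    have h5 : ∃ k, orderOf (n⁻¹ * z * n) = p ^ k := by
      obtain ⟨k, hk⟩ := hzp
      refine ⟨k, ?_⟩
      rw [← hk]
      have h6 := orderOf_injective (MulAut.conj n⁻¹).toMonoidHom (MulAut.conj n⁻¹).injective z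
      have h7 : (MulAut.conj n⁻¹).toMonoidHom z = n⁻¹ * z * n := by
        change n⁻¹ * z * n⁻¹⁻¹ = _
        rw [inv_inv]
      rw [h7] at h6
      exact h6
    have h6 : n⁻¹ * z * n ∈ G := by
      have h7 := hG.conj_mem z hz.1 n⁻¹
      rwa [inv_inv] at h7
    exact ⟨n⁻¹, G.inv_mem (hNG hn), main _ h1 _ h2 hnH h3 h4 h5, _, ⟨⟨h6, hnH⟩, h2⟩, h3, h4, h5⟩
  · rintro σ hσ ⟨z, hz, hzK, hzN, hzp⟩
    exact main σ hσ z hz.2 hz.1.2 hzK hzN hzp
  · rintro σ e ⟨z, hz, hzK, hzN, hzp⟩ ⟨z', hz', hzK', hzN', hzp'⟩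
    -- the group `M = Ns G (e σ)`
    have hu : e * z * e⁻¹ ∈ Ns G (conjSub e '' σ) := by
      refine Subgroup.mem_inf.mpr ⟨hG.conj_mem z hz.1.1 e, ?_⟩
      rw [chainStabilizer_conj, mem_conjSub]
      have e1 : e⁻¹ * (e * z * e⁻¹) * e = z := by group
      rw [e1]
      exact hz.2
    obtain ⟨M, hM⟩ : ∃ M : Subgroup Γ, M = Ns G (conjSub e '' σ) := ⟨_, rfl⟩
    have hzM : z' ∈ M := by
      rw [hM]
      exact ⟨hz'.1.1, hz'.2⟩
    rw [← hM] at hu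
    obtain ⟨a, ha⟩ : ∃ a : M, (a : Γ) = z' := ⟨⟨z', hzM⟩, rfl⟩
    obtain ⟨b, hb⟩ : ∃ b : M, (b : Γ) = e * z * e⁻¹ := ⟨⟨_, hu⟩, rfl⟩
    have hap : ∃ k, orderOf a = p ^ k := by
      obtain ⟨k, hk⟩ := hzp'
      refine ⟨k, ?_⟩
      rw [← hk, ← ha]
      exact (Subgroup.orderOf_coe a).symm
    have hbp : ∃ k, orderOf b = p ^ k := by
      obtain ⟨k, hk⟩ := hzp
      refine ⟨k, ?_⟩
      rw [← hk, ← Subgroup.orderOf_coe b, hb]
      exact orderOf_injective (MulAut.conj e).toMonoidHom (MulAut.conj e).injective z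
    obtain ⟨Q, hQ⟩ := (zp_isp hap).exists_le_sylow
    obtain ⟨Q', hQ'⟩ := (zp_isp hbp).exists_le_sylow
    obtain ⟨l, hl⟩ := MulAction.exists_smul_eq M Q' Q
    have h1 : l * b * l⁻¹ ∈ Q := by
      rw [← hl, ← SetLike.mem_coe, Sylow.coe_smul, Set.mem_smul_set]
      exact ⟨b, hQ' (Subgroup.mem_zpowers b), rfl⟩
    have hQH : (Q : Subgroup M).map M.subtype ≤ H :=
      le_H ti d (Q.isPGroup'.map _) ⟨a, hQ (Subgroup.mem_zpowers a), ha⟩ hz'.1.2 hzK' hzN'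
    have h2 : ((l * b * l⁻¹ : M) : Γ) ∈ H := hQH ⟨_, h1, rfl⟩
    have h3 : ((l * b * l⁻¹ : M) : Γ) = ((l : Γ) * e) * z * ((l : Γ) * e)⁻¹ := by
      rw [Subgroup.coe_mul, Subgroup.coe_mul, Subgroup.coe_inv, hb]
      group
    rw [h3] at h2
    have h4 : ((l : Γ) * e)⁻¹ ∈ H := by
      refine hT _ z hz.1.2 hzK hzN ?_
      rwa [inv_inv]
    have h5 : (l : Γ) * e ∈ H := by
      have := H.inv_mem h4
      rwa [inv_inv] at this
    refine ⟨e⁻¹ * l * e, ?_, ?_⟩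
    · have hlM : (l : Γ) ∈ Ns G (conjSub e '' σ) := by
        rw [← hM]
        exact l.2
      refine Subgroup.mem_inf.mpr ⟨?_, ?_⟩
      · have h6 := hG.conj_mem l hlM.1 e⁻¹
        rwa [inv_inv] at h6
      · have h7 := (Subgroup.mem_inf.mp hlM).2
        rw [chainStabilizer_conj, mem_conjSub] at h7
        exact h7
    · have e1 : e * (e⁻¹ * l * e) = (l : Γ) * e := by group
      rw [e1]
      exact h5
  · exact norm_le_H ti d hZp (conj_normal Z y) d.ord_y (d.hPH d.hyP) y_mem d.hyN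

end Pool.Agent.Q239.DC
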