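import Pool.Agent.Q17.DC.Stm

/-!
# Comparison of two alternating sums (CHS)
-/

set_option autoImplicit false

open scoped BigOperators Classical
open Pool.Agent.Y63.KR Pool.Agent.Q17.TC Pool.Agent.Q17.DC

noncomputable section

namespace Pool.Agent.Q239.DC

/-- the representative of a class is conjugate to each member -/
lemma out_conj {Γ : Type} [Group Γ] {p : ℕ} {X Z : Subgroup Γ}
    (σ : {σ : Set (Subgroup Γ) // Ch p X Z σ}) :
    ∃ g ∈ X, (Quotient.out (Quotient.mk (chX p X Z) σ)).1 = conjSub g '' σ.1 := by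
  have h := Quotient.exact (s := chX p X Z)
    (Quotient.out_eq (Quotient.mk (chX p X Z) σ)).symm
  exact h

/-- **CHS** -/
theorem t_CHS : S_CHS := by
  intro Γ _ _ p X X' Z w w' R R' hXX hw hw' hR hR' h1 h2 h3
  obtain ⟨f, hf⟩ : ∃ f : Quotient (chX p X Z) → ℤ,
      f = fun c => (-1) ^ (Quotient.out c).1.ncard * w (Quotient.out c).1 := ⟨_, rfl⟩
  obtain ⟨f', hf'⟩ : ∃ f' : Quotient (chX p X' Z) → ℤ,
      f' = fun c => (-1) ^ (Quotient.out c).1.ncard * w' (Quotient.out c).1 := ⟨_, rfl⟩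
  have ea : altX p X Z w = ∑ᶠ c, f c := by rw [hf]; rfl
  have eb : altX p X' Z w' = ∑ᶠ c, f' c := by rw [hf']; rfl
  rw [ea, eb]
  have hfc : ∀ σ : {σ : Set (Subgroup Γ) // Ch p X Z σ}, f (Quotient.mk (chX p X Z) σ) =
      (-1) ^ σ.1.ncard * w σ.1 := by
    intro σ
    obtain ⟨g, hg, hgσ⟩ := out_conj σ
    rw [hf]
    change (-1) ^ (Quotient.out (Quotient.mk (chX p X Z) σ)).1.ncard *
      w (Quotient.out (Quotient.mk (chX p X Z) σ)).1 = _
    rw [hgσ, ncard_conj, hw σ.1 σ.2 g hg]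
  have hfc' : ∀ σ : {σ : Set (Subgroup Γ) // Ch p X' Z σ}, f' (Quotient.mk (chX p X' Z) σ) =
      (-1) ^ σ.1.ncard * w' σ.1 := by
    intro σ
    obtain ⟨g, hg, hgσ⟩ := out_conj σ
    rw [hf']
    change (-1) ^ (Quotient.out (Quotient.mk (chX p X' Z) σ)).1.ncard *
      w' (Quotient.out (Quotient.mk (chX p X' Z) σ)).1 = _
    rw [hgσ, ncard_conj, hw' σ.1 σ.2 g hg]
  -- the support
  have hs : ∀ c, f c ≠ 0 → w (Quotient.out c).1 ≠ 0 := by
    intro c hc h0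
    apply hc
    rw [hf]
    change (-1) ^ (Quotient.out c).1.ncard * w (Quotient.out c).1 = 0
    rw [h0, mul_zero]
  have hs' : ∀ c, f' c ≠ 0 → w' (Quotient.out c).1 ≠ 0 := by
    intro c hc h0
    apply hc
    rw [hf']
    change (-1) ^ (Quotient.out c).1.ncard * w' (Quotient.out c).1 = 0
    rw [h0, mul_zero]
  have hRc' : ∀ c, f' c ≠ 0 → R' (Quotient.out c).1 := fun c hc =>
    hR' _ (Quotient.out c).2 (hs' c hc)
  -- the map
  let Φ : Quotient (chX p X' Z) → Quotient (chX p X Z) := fun c =>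
    if h : Ch p X Z (Quotient.out c).1 then Quotient.mk (chX p X Z) ⟨(Quotient.out c).1, h⟩
    else Quotient.mk (chX p X Z) ⟨∅, ⟨by rintro P hP; exact hP.elim, fun P hP => hP.elim,
      fun P hP => hP.elim, fun P hP => hP.elim⟩⟩
  have hΦ : ∀ c (h : Ch p X Z (Quotient.out c).1),
      Φ c = Quotient.mk (chX p X Z) ⟨(Quotient.out c).1, h⟩ := fun c h => dif_pos h
  have hval : ∀ c, f' c ≠ 0 → f' c = f (Φ c) := by
    intro c hc
    obtain ⟨ha, hb, hc'⟩ := h2 _ (Quotient.out c).2 (hRc' c hc)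
    rw [hΦ c ha, hfc, hc', hf']
  rw [← finsum_mem_support f, ← finsum_mem_support f']
  symm
  refine finsum_mem_eq_of_bijOn Φ ⟨?_, ?_, ?_⟩ fun c hc => hval c hc
  · intro c hc
    rw [Function.mem_support, ← hval c hc]
    exact hc
  · intro c hc d hd hcd
    obtain ⟨ha, -, -⟩ := h2 _ (Quotient.out c).2 (hRc' c hc)
    obtain ⟨hb, -, -⟩ := h2 _ (Quotient.out d).2 (hRc' d hd)
    rw [hΦ c ha, hΦ d hb] at hcd
    obtain ⟨g, hg, hgσ⟩ := Quotient.exact hcd
    have hgσ' : (Quotient.out d).1 = conjSub g '' (Quotient.out c).1 := hgσ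
    obtain ⟨k, hk, hkσ⟩ := h3 _ (Quotient.out c).2 (hRc' c hc) g hg
      (by rw [← hgσ']; exact (Quotient.out d).2) (by rw [← hgσ']; exact hRc' d hd)
    rw [← Quotient.out_eq c, ← Quotient.out_eq d]
    refine Quotient.sound ⟨k, hk, ?_⟩
    rw [hgσ', hkσ]
  · intro c hc
    have hσ := (Quotient.out c).2
    obtain ⟨g, hg, hg1, hg2⟩ := h1 _ hσ (hR _ hσ (hs c hc))
    obtain ⟨hb1, hb2, hb3⟩ := h2 _ hg1 hg2
    have hfc0 : f' (Quotient.mk (chX p X' Z) ⟨_, hg1⟩) ≠ 0 := by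
      rw [hfc']
      change (-1) ^ (conjSub g '' (Quotient.out c).1).ncard * w' (conjSub g '' (Quotient.out c).1) ≠ 0
      rw [← hb3, hw _ hσ g hg]
      exact mul_ne_zero (pow_ne_zero _ (by norm_num)) (hs c hc)
    refine ⟨Quotient.mk (chX p X' Z) ⟨_, hg1⟩, hfc0, ?_⟩
    obtain ⟨ha, -, -⟩ := h2 _ (Quotient.out (Quotient.mk (chX p X' Z) ⟨_, hg1⟩)).2 (hRc' _ hfc0)
    rw [hΦ _ ha]
    obtain ⟨k, hk, hkσ⟩ := out_conj (⟨_, hg1⟩ : {σ : Set (Subgroup Γ) // Ch p X' Z σ})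
    symm
    refine (Quotient.out_eq c).symm.trans (Quotient.sound ⟨k * g, X.mul_mem (hXX hk) hg, ?_⟩)
    change (Quotient.out (Quotient.mk (chX p X' Z) ⟨_, hg1⟩)).1 = _
    rw [hkσ]
    change conjSub k '' (conjSub g '' (Quotient.out c).1) = _
    rw [← Set.image_comp]
    congr 1
    exact (funext fun P => conjSub_mul k g P).symm

end Pool.Agent.Q239.DC
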