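import Pool.Agent.Q17.DC.Stm

/-!
# The data are inherited by subgroups (LOC)
-/

set_option autoImplicit false

open scoped BigOperators Classical
open Pool.Agent.Y63.KR Pool.Agent.Q17.TC Pool.Agent.Q17.DC

noncomputable section

namespace Pool.Agent.Q239.DC

section loc

variable {G : Type} [Group G] [Fintype G] {N : Subgroup G} {y : G}
  {H : Subgroup G} {p : ℕ} [hp : Fact p.Prime] {P : Sylow p G}

/-- a `p`-subgroup which contains an element of `H ∩ K` outside `N` is in `H` -/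
lemma le_H (ti : S_TI) (d : TD p N y H P) {Q : Subgroup G} (hQ : IsPGroup p Q) {z : G}
    (hzQ : z ∈ Q) (hzH : z ∈ H) (hzK : z ∈ KK N y) (hzN : z ∉ N) : Q ≤ H := by
  obtain ⟨Q', hQ'⟩ := hQ.exists_le_sylow
  obtain ⟨g, hg⟩ := MulAction.exists_smul_eq G P Q'
  have h1 : ∀ x ∈ Q', g⁻¹ * x * g ∈ P := by
    intro x hx
    rw [← hg, ← SetLike.mem_coe, Sylow.coe_smul, Set.mem_smul_set] at hx
    obtain ⟨z, hz, rfl⟩ := hx
    have h2 : g⁻¹ * (MulAut.conj g • z) * g = z := by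
      change g⁻¹ * (g * z * g⁻¹) * g = z
      group
    rw [h2]
    exact hz
  have h2 : g ∈ H := (ti G p N y H P d).1 g z hzH hzK hzN (d.hPH (h1 z (hQ' hzQ)))
  intro x hx
  have h3 := H.mul_mem (H.mul_mem h2 (d.hPH (h1 x (hQ' hx)))) (H.inv_mem h2)
  have h4 : g * (g⁻¹ * x * g) * g⁻¹ = x := by group
  rwa [h4] at h3

omit [Fintype G] hp in
/-- a cyclic group generated by an element of `p`-power order -/
lemma zp_isp {z : G} (h : ∃ k, orderOf z = p ^ k) : IsPGroup p (Subgroup.zpowers z) := by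
  obtain ⟨k, hk⟩ := h
  exact IsPGroup.of_card (n := k) (by rw [Nat.card_zpowers, hk])

end loc

/-- **LOC** -/
theorem t_LOC : S_LOC := by
  intro ti G _ _ p hp N hN y H P d L z hzH hzK hzN hzp
  have hnK : (KK N y).Normal := d.nK
  obtain ⟨P', hP'⟩ := (zp_isp hzp).exists_le_sylow
  have hzP' : z ∈ P' := hP' (Subgroup.mem_zpowers z)
  have hP'H : (P' : Subgroup L).map L.subtype ≤ H :=
    le_H ti d (P'.isPGroup'.map _) ⟨z, hzP', rfl⟩ hzH hzK hzN
  have hPH : ∀ x ∈ P', (x : G) ∈ H := fun x hx => hP'H ⟨x, hx, rfl⟩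
  have hT := (ti G p N y H P d).1
  have hKK : KK N (z : G) = KK N y := d.KK_eq hzK hzN
  refine ⟨P', ⟨inferInstance, hzN, ?_, ?_, hzP', hPH, ?_, ?_⟩⟩
  · -- `z ^ p ∈ N`
    have h1 : (⟨z, hzK⟩ : KK N y) ^ p ∈ N.subgroupOf (KK N y) := by
      have h2 : (N.subgroupOf (KK N y)).index = p := d.idx
      have h3 := Subgroup.pow_index_mem (N.subgroupOf (KK N y)) (⟨z, hzK⟩ : KK N y)
      rwa [h2] at h3
    exact h1
  · intro g
    exact KK_com d.hcen g z hzK
  · -- Frattini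
    intro g
    obtain ⟨z', hz'⟩ : ∃ z' : (KK N y).comap L.subtype, (z' : L) = z := ⟨⟨z, hzK⟩, rfl⟩
    have hz'p : ∃ k, orderOf z' = p ^ k := by
      obtain ⟨k, hk⟩ := hzp
      refine ⟨k, ?_⟩
      rw [← hk, ← hz']
      exact (Subgroup.orderOf_coe z').symm
    obtain ⟨Q, hQ⟩ := (zp_isp hz'p).exists_le_sylow
    have hzQ : z' ∈ Q := hQ (Subgroup.mem_zpowers z')
    have hQH : (((Q : Subgroup ((KK N y).comap L.subtype)).map
        ((KK N y).comap L.subtype).subtype).map L.subtype) ≤ H := by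
      refine le_H ti d ((Q.isPGroup'.map _).map _) ⟨z, ⟨z', hzQ, hz'⟩, rfl⟩ hzH hzK hzN
    have h1 := Sylow.normalizer_sup_eq_top Q
    have h2 : g⁻¹ ∈ Subgroup.normalizer (((Q : Subgroup ((KK N y).comap L.subtype)).map
        ((KK N y).comap L.subtype).subtype : Subgroup L) : Set L) ⊔ (KK N y).comap L.subtype := by
      rw [h1]
      exact Subgroup.mem_top _
    obtain ⟨m, hm, k, hk, hmk⟩ := Subgroup.mem_sup_of_normal_right.mp h2
    have hmH : (m : G) ∈ H := by
      have h3 : m⁻¹ * z * m ∈ ((Q : Subgroup ((KK N y).comap L.subtype)).map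
          ((KK N y).comap L.subtype).subtype : Subgroup L) := by
        have h4 := (Subgroup.mem_normalizer_iff.mp (Subgroup.inv_mem _ hm) z).mp ⟨z', hzQ, hz'⟩
        rwa [inv_inv] at h4
      exact hT m z hzH hzK hzN (hQH ⟨_, h3, rfl⟩)
    have hkK : ((k⁻¹ : L) : G) ∈ KK N (z : G) := by
      rw [hKK]
      exact Subgroup.inv_mem _ hk
    obtain ⟨n, hn, w, hw, hnw⟩ := Subgroup.mem_sup_of_normal_left.mp hkK
    obtain ⟨i, rfl⟩ := Subgroup.mem_zpowers_iff.mp hw
    refine ⟨k⁻¹ * (z ^ i)⁻¹, ?_, z ^ i * m⁻¹, ?_, ?_⟩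
    · rw [Subgroup.mem_comap]
      have h5 : L.subtype (k⁻¹ * (z ^ i)⁻¹) = n := by
        change ((k⁻¹ : L) : G) * ((z ^ i : L) : G)⁻¹ = n
        rw [← hnw, Subgroup.coe_zpow, mul_inv_cancel_right]
      rw [h5]
      exact hn
    · rw [Subgroup.mem_comap]
      have h5 : L.subtype (z ^ i * m⁻¹) = (z : G) ^ i * (m : G)⁻¹ := by
        change ((z ^ i : L) : G) * ((m⁻¹ : L) : G) = _
        rw [Subgroup.coe_zpow, Subgroup.coe_inv]
      rw [h5]
      exact H.mul_mem (H.zpow_mem hzH i) (H.inv_mem hmH)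
    · have h6 : g = k⁻¹ * m⁻¹ := by rw [← mul_inv_rev, hmk, inv_inv]
      rw [h6]
      group
  · intro x hx hzx n hn hc
    have h1 : (x : G) ∈ KK N y := by
      have h2 := (KK N y).mul_mem hzK (le_KK (y := y) (Subgroup.mem_comap.mp hzx))
      have h3 : (z : G) * L.subtype (z⁻¹ * x) = x := by
        change (z : G) * ((z : G)⁻¹ * (x : G)) = x
        group
      rwa [h3] at h2
    have h2 : (x : G) ∉ N := by
      intro h3
      apply hzN
      have h4 := N.mul_mem h3 (N.inv_mem (Subgroup.mem_comap.mp hzx))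
      have e1 : (x : G) * (L.subtype (z⁻¹ * x))⁻¹ = z := by
        change (x : G) * ((z : G)⁻¹ * (x : G))⁻¹ = z
        group
      rwa [e1] at h4
    refine hT n x (hPH x hx) h1 h2 ?_
    have e1 : (n : G)⁻¹ * x * n = x := by
      have hc' : (n : G) * x = x * n := congrArg Subtype.val hc.eq
      rw [mul_assoc, ← hc']
      group
    rw [e1]
    exact hPH x hx

end Pool.Agent.Q239.DC
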