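import Pool.Agent.Q17.DC.Cnt
import Pool.Agent.Y62.Transfer

/-!
# The number of counted characters is invariant under conjugation (CNJ)
-/

set_option autoImplicit false

open scoped BigOperators Classical
open Pool.Agent.H254R3.IN Pool.Agent.Y63.KR Pool.Agent.Q17.DC Pool.Agent.Y62

noncomputable section

namespace Pool.Agent.Q239.DC

/-- central characters and isomorphisms -/
lemma omega_equiv {A B : Type} [Group A] [Group B] (c : A ≃* B) (χ : B → ℂ) (x : A) :
    omega (fun a => χ (c a)) x = omega χ (c x) := by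
  unfold omega
  have h1 : Nat.card {y : A // IsConj x y} = Nat.card {y : B // IsConj (c x) y} := by
    refine Nat.card_congr (c.toEquiv.subtypeEquiv fun y => ?_)
    constructor
    · intro h
      exact MonoidHom.map_isConj c.toMonoidHom h
    · intro h
      have h2 := MonoidHom.map_isConj c.symm.toMonoidHom h
      have e1 : c.symm.toMonoidHom (c x) = x := c.symm_apply_apply x
      have e2 : c.symm.toMonoidHom (c.toEquiv y) = y := c.symm_apply_apply y
      rwa [e1, e2] at h2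
  rw [h1]
  change (Nat.card {y : B // IsConj (c x) y} : ℂ) * χ (c x) / χ (c 1) = _
  rw [map_one]

variable {Γ : Type} [Group Γ]

/-- one inclusion of the stabilisers -/
lemma stb_sub {G L L' R R' : Subgroup Γ} [G.Normal] (c : L' ≃* L) {g : Γ} (hg : g ∈ G)
    (hc : ∀ x : L, ((c.symm x : L') : Γ) = g * x * g⁻¹) (hR : ∀ e, e ∈ R' ↔ g⁻¹ * e * g ∈ R)
    (χ : L → ℂ) : stb G R' L' (fun x => χ (c x)) ⊆ stb G R L χ := by
  rintro w ⟨u, hu, e, he, hw, hx⟩
  refine ⟨u * (e * g⁻¹ * e⁻¹) * g, ?_, g⁻¹ * e * g, (hR e).mp he, ?_, ?_⟩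
  · refine G.mul_mem (G.mul_mem hu ?_) hg
    exact ‹G.Normal›.conj_mem _ (G.inv_mem hg) e
  · rw [hw]
    group
  · intro x x' hxx
    have h1 := hx (c.symm x) (c.symm x') (by
      rw [hc, hc, hxx]
      group)
    change χ (c (c.symm x')) = w.2 (χ (c (c.symm x))) at h1
    rwa [c.apply_symm_apply, c.apply_symm_apply] at h1

/-- the stabilisers agree -/
lemma stb_eq {G L L' R R' : Subgroup Γ} [G.Normal] (c : L' ≃* L) {g : Γ} (hg : g ∈ G)
    (hc : ∀ x : L', ((c x : L) : Γ) = g⁻¹ * x * g)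
    (hc' : ∀ x : L, ((c.symm x : L') : Γ) = g * x * g⁻¹) (hR : ∀ e, e ∈ R' ↔ g⁻¹ * e * g ∈ R)
    (χ : L → ℂ) : stb G R' L' (fun x => χ (c x)) = stb G R L χ := by
  refine Set.Subset.antisymm (stb_sub c hg hc' hR χ) ?_
  have h1 : χ = fun x => (fun y => χ (c y)) (c.symm x) := by
    funext x
    change χ x = χ (c (c.symm x))
    rw [c.apply_symm_apply]
  have h2 := stb_sub (G := G) (L := L') (L' := L) (R := R') (R' := R) c.symm (g := g⁻¹)
    (G.inv_mem hg) (fun x => by
      change ((c x : L) : Γ) = _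
      rw [hc, inv_inv]) (fun e => by
      rw [hR, inv_inv]
      have e1 : g⁻¹ * (g * e * g⁻¹) * g = e := by group
      rw [e1]) (fun y => χ (c y))
  rwa [← h1] at h2

/-- one direction -/
lemma cn_of (D : Dt Γ) [D.G.Normal] [D.N.Normal] [D.K.Normal]
    (hZ : ∀ c ∈ D.Z₁, ∀ g ∈ D.G, c * g = g * c) {L L' R R' : Subgroup Γ}
    (c : L' ≃* L) {g : Γ} (hg : g ∈ D.G)
    (hc : ∀ x : L', ((c x : L) : Γ) = g⁻¹ * x * g)
    (hc' : ∀ x : L, ((c.symm x : L') : Γ) = g * x * g⁻¹) (hR : ∀ e, e ∈ R' ↔ g⁻¹ * e * g ∈ R)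
    {χ : L → ℂ} (h : Cn D L R χ) : Cn D L' R' (fun x => χ (c x)) := by
  have hsec : ∀ x : L, Sec D.p D.N D.K (x : Γ) → Sec D.p D.N D.K ((c.symm x : L') : Γ) := by
    rintro x ⟨z, s, hx, hzs, hzK, hzN, ⟨k, hk⟩, hs⟩
    refine ⟨g * z * g⁻¹, g * s * g⁻¹, ?_, ?_, ?_, ?_, ⟨k, ?_⟩, ?_⟩
    · rw [hc', hx]
      group
    · change g * z * g⁻¹ * (g * s * g⁻¹) = g * s * g⁻¹ * (g * z * g⁻¹)
      have e1 : g * z * g⁻¹ * (g * s * g⁻¹) = g * (z * s) * g⁻¹ := by group
      have e2 : g * s * g⁻¹ * (g * z * g⁻¹) = g * (s * z) * g⁻¹ := by group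
      rw [e1, e2, hzs.eq]
    · exact ‹D.K.Normal›.conj_mem z hzK g
    · intro h0
      apply hzN
      have h1 := ‹D.N.Normal›.conj_mem _ h0 g⁻¹
      have e : g⁻¹ * (g * z * g⁻¹) * g⁻¹⁻¹ = z := by group
      rwa [e] at h1
    · rw [← hk]
      exact orderOf_injective (MulAut.conj g).toMonoidHom (MulAut.conj g).injective z
    · have h1 : orderOf (g * s * g⁻¹) = orderOf s :=
        orderOf_injective (MulAut.conj g).toMonoidHom (MulAut.conj g).injective s
      rwa [h1]
  refine ⟨irr_comp h.irr c, ?_, ?_, ?_, ?_, ?_, ?_⟩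
  · intro x hx
    have h1 := h.blk x hx
    have h2 : indc D.G L' (fun x => χ (c x)) x = indc D.G L χ x := by
      unfold indc
      refine finsum_eq_of_bijective
        (fun y : {y : L' // ∃ k ∈ D.G, k * x * k⁻¹ = y} =>
          (⟨c y.1, by
            obtain ⟨k, hk, hky⟩ := y.2
            refine ⟨g⁻¹ * k, D.G.mul_mem (D.G.inv_mem hg) hk, ?_⟩
            rw [hc, ← hky]
            group⟩ : {y : L // ∃ k ∈ D.G, k * x * k⁻¹ = y})) ⟨?_, ?_⟩ ?_
      · intro y y' hyy
        exact Subtype.ext (c.injective (congrArg Subtype.val hyy))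
      · rintro ⟨y, k, hk, hky⟩
        refine ⟨⟨c.symm y, g * k, D.G.mul_mem hg hk, ?_⟩, ?_⟩
        · rw [hc', ← hky]
          group
        · apply Subtype.ext
          exact c.apply_symm_apply y
      · intro y
        change χ (c y.1) / χ (c 1) = χ (c y.1) / χ 1
        rw [map_one]
    rw [h2]
    exact h1
  · intro ha
    obtain ⟨x, hx1, hx2⟩ := h.god ha
    refine ⟨c.symm x, hsec x hx1, ?_⟩
    rw [omega_equiv c χ, c.apply_symm_apply]
    exact hx2
  · intro hb
    obtain ⟨x, hx1, hx2⟩ := h.nvn hb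
    refine ⟨c.symm x, hsec x hx1, ?_⟩
    rw [c.apply_symm_apply]
    exact hx2
  · intro x hx
    have h1 : ((c x : L) : Γ) = x := by
      rw [hc, mul_assoc, hZ _ hx g hg]
      group
    rw [h.cen (c x) (by rw [h1]; exact hx), h1, map_one]
  · obtain ⟨n, hn, hT⟩ := h.deg
    refine ⟨n, ?_, ?_⟩
    · rw [map_one]
      exact hn
    · rw [Nat.card_congr c.toEquiv]
      exact hT
  · rw [stb_eq c hg hc hc' hR χ]
    exact h.stb

/-- **CNJ** -/
theorem t_CNJ : S_CNJ := by
  intro Γ _ _ D hG hN hK hZ L R hL g hg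
  have hcm : ∀ x : conjSub g L, g⁻¹ * (x : Γ) * g ∈ L := fun x => mem_conjSub.mp x.2
  let c : conjSub g L ≃* L :=
    { toFun := fun x => ⟨g⁻¹ * (x : Γ) * g, hcm x⟩
      invFun := fun x => ⟨g * (x : Γ) * g⁻¹, conj_mem_conjSub x.2⟩
      left_inv := fun x => Subtype.ext (by
        change g * (g⁻¹ * (x : Γ) * g) * g⁻¹ = x
        group)
      right_inv := fun x => Subtype.ext (by
        change g⁻¹ * (g * (x : Γ) * g⁻¹) * g = x
        group)
      map_mul' := fun x x' => Subtype.ext (by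
        change g⁻¹ * ((x : Γ) * (x' : Γ)) * g = g⁻¹ * (x : Γ) * g * (g⁻¹ * (x' : Γ) * g)
        group) }
  have hc : ∀ x : conjSub g L, ((c x : L) : Γ) = g⁻¹ * x * g := fun x => rfl
  have hc' : ∀ x : L, ((c.symm x : conjSub g L) : Γ) = g * x * g⁻¹ := fun x => rfl
  have hR : ∀ e, e ∈ conjSub g R ↔ g⁻¹ * e * g ∈ R := fun e => mem_conjSub
  unfold kn
  congr 1
  symm
  refine Nat.card_congr ((c.toEquiv.arrowCongr (Equiv.refl ℂ)).symm.subtypeEquiv fun χ => ?_)
  have e1 : (c.toEquiv.arrowCongr (Equiv.refl ℂ)).symm χ = fun x => χ (c x) := rfl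
  rw [e1]
  constructor
  · intro h
    exact cn_of D hZ c hg hc hc' hR h
  · intro h
    have h1 := cn_of D hZ (L := conjSub g L) (L' := L) (R := conjSub g R) (R' := R) c.symm
      (g := g⁻¹) (D.G.inv_mem hg) (fun x => by rw [hc', inv_inv])
      (fun x => by
        change ((c x : L) : Γ) = _
        rw [hc, inv_inv])
      (fun e => by
        rw [hR, inv_inv]
        have e1 : g⁻¹ * (g * e * g⁻¹) * g = e := by group
        rw [e1]) h
    have h2 : (fun x => (fun y => χ (c y)) (c.symm x)) = χ := by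
      funext x
      change χ (c (c.symm x)) = χ x
      rw [c.apply_symm_apply]
    rwa [h2] at h1

end Pool.Agent.Q239.DC
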